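import Pool.Agent.Lib.MP_91598f_pr.NU.Erg

/-!
An ergodic probabilistic cellular automaton which is not uniformly ergodic.
-/

open MeasureTheory Set

namespace Pool.Agent.Results.MP_91598f_pr.NotUniform

open PCABern

/-- There is an ergodic PCA on `{0,1,2,3}^ℤ` with neighbourhood `{-1,0,1}` which is not uniformly
ergodic: for some cylinder of probability `0` under the invariant law and for every time `t` there
is an initial configuration from which that cylinder has probability `1` at time `t`. -/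
theorem result : ∃ (Φ : PCA (Fin 4) 1) (π : Measure (Config (Fin 4) 1)),
    (∀ n ∈ Φ.N, ‖n‖ ≤ 1) ∧ Φ.Ergodic π ∧ ¬ Φ.UniformlyErgodic π ∧
    ∃ (F : Finset (Site 1)) (u : F → Fin 4), π (cyl F u) = 0 ∧
      ∀ t : ℕ, ∃ x : Config (Fin 4) 1, Φ.evolve^[t] (Measure.dirac x) (cyl F u) = 1 := by
  refine ⟨NU.Φ, Measure.dirac NU.O, ?_, NU.ergodic, ?_, {NU.s 0}, fun _ => 3, NU.dirac_cyl,
    fun t => ⟨NU.lone t, NU.not_uniform t⟩⟩
  · intro n hn
    have hs : ∀ j : ℤ, |j| ≤ 1 → ‖NU.s j‖ ≤ 1 := by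
      intro j hj
      rw [pi_norm_le_iff_of_nonneg zero_le_one]
      intro _
      change ‖j‖ ≤ 1
      rw [Int.norm_eq_abs]
      exact_mod_cast hj
    have hn' : n = NU.s (-1) ∨ n = NU.s 0 ∨ n = NU.s 1 := by
      have : n ∈ NU.nbhd := hn
      simpa [NU.nbhd] using this
    rcases hn' with h | h | h <;> rw [h] <;> exact hs _ (by norm_num)
  · intro h
    obtain ⟨T, hT⟩ := h.2 {NU.s 0} (fun _ => 3) (1 / 2) (by norm_num)
    have h1 := hT T le_rfl (Measure.dirac (NU.lone T)) inferInstance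
    rw [NU.not_uniform, NU.dirac_cyl] at h1
    norm_num at h1

end Pool.Agent.Results.MP_91598f_pr.NotUniform
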