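import Pool.Agent.Lib.MP_91598f_pr.Dichotomy

/-!
A dichotomy for ergodic probabilistic cellular automata: either the relaxation to the invariant law
`π` on cubes of side `n` needs time at least linear in `n`, or it takes bounded time and `π` is very
weak Bernoulli.
-/

open MeasureTheory Set

namespace Pool.Agent.Results.MP_91598f_pr.RelaxationDichotomy

open PCABern

/-- Let `π` be the invariant law of an ergodic PCA on `A^{ℤ^d}`.  Either there is `ε > 0` such that
for all `n ≥ 1` and `t ≤ ε n` the `d`-bar distance on the cube of side `n` between the law at time
`t` started from `x` and `π`, averaged over `x` with law `π`, is more than `ε` per site; or this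
averaged distance is small at a bounded time for all large `n`, and `π` is very weak Bernoulli. -/
theorem result (A : Type) [Finite A] [Nonempty A] [MeasurableSpace A] [MeasurableSingletonClass A]
    (d : ℕ) (Φ : PCA A d) (π : Measure (Config A d)) (h : Φ.Ergodic π) :
    Φ.SlowMean π ∨ (Φ.FastMean π ∧ VeryWeakBernoulli π) :=
  mean_dichotomy h

end Pool.Agent.Results.MP_91598f_pr.RelaxationDichotomy
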