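import Pool.Agent.Lib.MP_91598f_pr.Dichotomy

/-!
The uniform dichotomy for ergodic probabilistic cellular automata: either the relaxation on cubes
of side `n` from some configuration of the support needs time at least linear in `n`, or it takes
bounded time uniformly on the support and `π` is very weak Bernoulli uniformly over all outside
events.
-/

open MeasureTheory Set

namespace Pool.Agent.Results.MP_91598f_pr.SupportDichotomy

open PCABern

/-- Let `π` be the invariant law of an ergodic PCA on `A^{ℤ^d}`.  Either there is `ε > 0` such that
for all `n ≥ 1` and `t ≤ ε n` there is a configuration `x` in the support of `π` for which the
`d`-bar distance on the cube of side `n` between the law at time `t` started from `x` and `π` is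
more than `ε` per site; or this distance is small at a bounded time for all large `n`, uniformly
over the `x` in the support of `π`, and then the law of the cube conditioned on ANY event of its
outside of positive probability is `d`-bar close to `π`. -/
theorem result (A : Type) [Finite A] [Nonempty A] [MeasurableSpace A] [MeasurableSingletonClass A]
    (d : ℕ) (Φ : PCA A d) (π : Measure (Config A d)) (h : Φ.Ergodic π) :
    Φ.SlowSupp π ∨ (Φ.FastSupp π ∧ UniformlyVeryWeakBernoulli π) :=
  supp_dichotomy h

end Pool.Agent.Results.MP_91598f_pr.SupportDichotomy
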