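import Pool.Agent.Lib.MP_91598f_pr.SuppMix

/-!
Uniform mixing, conditionally on far events, for the invariant law of an ergodic probabilistic
cellular automaton.
-/

open MeasureTheory Set

namespace Pool.Agent.Results.MP_91598f_pr.UniformMixing

open PCABern

/-- Let `π` be the invariant law of an ergodic PCA on `A^{ℤ^d}`, let `[u_1], …, [u_k]` be
cylinders and `ε > 0`.  There is `R` such that for all `v_1, …, v_k ∈ ℤ^d` at mutual distance more
than `R` and for every event `B` that depends only on the sites at distance more than `R` from all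
the `v_i`, the probability of `B` together with the translates `σ^{-v_i} [u_i]` differs from the
product of the probabilities by at most `ε π(B)`: the error is relative to `π(B)`. -/
theorem result (A : Type) [Finite A] [Nonempty A] [MeasurableSpace A] [MeasurableSingletonClass A]
    (d : ℕ) (Φ : PCA A d) (π : Measure (Config A d)) (h : Φ.Ergodic π)
    (k : ℕ) (F : Fin k → Finset (Site d)) (u : ∀ i, F i → A) (ε : ℝ) (hε : 0 < ε) :
    ∃ R : ℝ, ∀ v : Fin k → Site d, (∀ i j, i ≠ j → R < ‖v i - v j‖) →
      ∀ B : Set (Config A d), MeasurableSet[siteAlg A {i : Site d | ∀ j, R < ‖i - v j‖}] B →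
      |(π ((⋂ i, shift (v i) ⁻¹' cyl (F i) (u i)) ∩ B)).toReal
        - (∏ i, (π (cyl (F i) (u i))).toReal) * (π B).toReal| ≤ ε * (π B).toReal :=
  supp_mixing h F u ε hε

end Pool.Agent.Results.MP_91598f_pr.UniformMixing
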